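import Mathlib
import Pool.Agent.K3h28.SP.Grow
import Pool.Agent.H297R2.ThmJs

/-!
# Gel'fond's conjecture for the logarithms of almost all integers: relations whose degree tends to
infinity

For all `ℚ`-linearly independent algebraic numbers `α_1, ..., α_l`, for almost all `k`-tuples of
positive integers up to `x` the numbers `e^α_1, ..., e^α_l, log n_1, ..., log n_k` satisfy no
nonzero polynomial relation with algebraic coefficients of total degree at most `D`, where `D` may
tend to infinity with `x`: it is enough that `16 (D + 1) ^ (2 (k + l) + 1) ≤ log log x`. The number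
of exceptional tuples is at most `C x ^ k / log log x`, where `C` depends on `k` and `l` only, and not
on `D` and on the numbers `α_i`.

For example for every algebraic `α ≠ 0` and almost all integers `n` up to `x` the numbers `e^α`
and `log n` satisfy no relation of degree at most `c (log log x) ^ (1/5)`.

Known here is the case of a fixed degree (`AlmostAllBeta`, `AlmostAllBetaRate`), without any bound
for the dependence on the degree.

The proof: the theorem `Pool.Agent.K3h28.SP.grow` on the logarithms of integers over arbitrary
complex numbers `t_1, ..., t_l` without relations of degree at most `D` (an explicit theorem on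
multiplicative cubes, a bound for sets without cubes which is uniform in the dimension of the cubes,
and the theorems of Turán and Mertens), and the theorem of Lindemann and Weierstrass.
-/

set_option autoImplicit false

namespace Pool.Agent.Results.MP_c82530_nt.GrowingDegreeIntegers

/-- The complex numbers `x i` satisfy no nonzero polynomial relation of total degree at most `D`
with algebraic coefficients. -/
def IndepUpTo (D : ℕ) {σ : Type} (x : σ → ℂ) : Prop :=
  ∀ P : MvPolynomial σ (algebraicClosure ℚ ℂ), P.totalDegree ≤ D →
    MvPolynomial.aeval x P = 0 → P = 0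

open Classical in
/-- **Main result.** -/
theorem result (k l : ℕ) : ∃ C : ℝ, 0 < C ∧ ∀ x D : ℕ, 16 ≤ x →
    16 * ((D : ℝ) + 1) ^ (2 * (k + l) + 1) ≤ Real.log (Real.log x) →
    ∀ α : Fin l → ℂ, (∀ i, IsAlgebraic ℚ (α i)) → LinearIndependent ℚ α →
      (((Fintype.piFinset fun _ : Fin k => Finset.Icc 1 x).filter fun n =>
        ¬ IndepUpTo D (Sum.elim (fun i => Complex.exp (α i))
          fun i => (Real.log (n i) : ℂ))).card : ℝ) ≤
      C * (x : ℝ) ^ k / Real.log (Real.log x) := by
  obtain ⟨C, hC0, hC⟩ := Pool.Agent.K3h28.SP.grow k l
  refine ⟨C, hC0, fun x D hx hD α hα hli => ?_⟩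
  have h1 : Finset.Icc 1 x = Finset.Ioc 0 x := by
    ext n
    rw [Finset.mem_Icc, Finset.mem_Ioc]
    omega
  rw [h1]
  exact hC x D hx hD (fun i => Complex.exp (α i))
    (Pool.Agent.H297R2.exp_noRel D α hα hli)

end Pool.Agent.Results.MP_c82530_nt.GrowingDegreeIntegers
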