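import Mathlib
import Pool.Agent.K3h34.GP.Pl
import Pool.Agent.H297R2.ThmJs

/-!
# Gel'fond's conjecture in bounded degree for all archimedean absolute values of almost all integers of
number fields

Let `K_1, ..., K_k` be number fields. For almost all `k`-tuples `(a_1, ..., a_k)` of integers of
these fields, ordered by the largest absolute value of a conjugate, and for all `ℚ`-linearly
independent algebraic numbers `α_1, ..., α_l`, the numbers `e^α_1, ..., e^α_l` and the logarithms
`log |a_j|_v` of ALL absolute values of the conjugates of `a_1, ..., a_k` (`v` runs through the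
`r_1 + r_2` infinite places of `K_j`) satisfy no nonzero polynomial relation of total degree `≤ D` with
algebraic coefficients. The bound for the number of exceptions is uniform in the `α_i`.

For example let `K = ℚ(√2)`: for almost all pairs `(a, b)` of integers the `l + 2` numbers
`e^α_1, ..., e^α_l`, `log |a + b √2|`, `log |a - b √2|` satisfy no relation of degree `≤ D`.

Known here are the field `ℚ` (`AlmostAllBeta`) and one logarithm for each of the shifts of an
algebraic number (`NumberFieldTuples`, where the other conjugates do not appear). The logarithms of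
the conjugates of the same number are not independent of each other in any obvious way: their sum is
the logarithm of the norm.

The proof: the theorem on cubes for vectors (`Pool.Agent.K3h28.NF.cube_logs`, from the theorem of
Baker and the hyperplane case of the linear subgroup theorem of Waldschmidt and Roy), applied over the
numbers `e^α_i`, multiplicative cubes of integers of a number field in dense sets
(`Pool.Agent.K3h28.NF.dense_cube`), the independence of the logarithms of the absolute values of the
sides of these cubes (`Pool.Agent.K3h28.NS.abs_indep`), and the theorem of Lindemann and Weierstrass.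
-/

set_option autoImplicit false

open NumberField

namespace Pool.Agent.Results.MP_c82530_nt.InfinitePlaces

/-- The complex numbers `x i` satisfy no nonzero polynomial relation of total degree at most `D`
with algebraic coefficients. -/
def IndepUpTo (D : ℕ) {σ : Type} (x : σ → ℂ) : Prop :=
  ∀ P : MvPolynomial σ (algebraicClosure ℚ ℂ), P.totalDegree ≤ D →
    MvPolynomial.aeval x P = 0 → P = 0

/-- The tuples `(a_1, ..., a_k)` of integers `a_i` of the fields `K_i` such that all conjugates
`σ (a_i)` have absolute value at most `X`. -/
def Region {k : ℕ} (K : Fin k → Type) [∀ i, Field (K i)] (X : ℝ) : Set (∀ i, 𝓞 (K i)) :=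
  {a | ∀ i, ∀ σ : K i →+* ℂ, ‖σ (a i : K i)‖ ≤ X}

/-- The numbers `e^α_1, ..., e^α_l` and `log |a_j|_v`, for all `j` and all infinite places `v` of
`K_j`. -/
noncomputable def numbers {k l : ℕ} (K : Fin k → Type) [∀ j, Field (K j)] [∀ j, NumberField (K j)]
    (α : Fin l → ℂ) (a : ∀ j, 𝓞 (K j)) : Fin l ⊕ (Σ j, InfinitePlace (K j)) → ℂ :=
  Sum.elim (fun i => Complex.exp (α i)) (fun p => (Real.log (p.2 (a p.1 : K p.1)) : ℂ))

/-- **Main result.** -/
theorem result (k l D : ℕ) (K : Fin k → Type) [∀ j, Field (K j)] [∀ j, NumberField (K j)]
    (ε : ℝ) (hε : 0 < ε) :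
    ∃ X₀ : ℝ, ∀ X ≥ X₀, (Region K X).Finite ∧
      ∀ α : Fin l → ℂ, (∀ i, IsAlgebraic ℚ (α i)) → LinearIndependent ℚ α →
        ({a | a ∈ Region K X ∧ (∀ j, a j ≠ 0) ∧ ¬ IndepUpTo D (numbers K α a)}.ncard : ℝ) ≤
          ε * (Region K X).ncard := by
  obtain ⟨X₀, hX₀⟩ := Pool.Agent.K3h34.GP.pl_main k K (Fin l) D ε hε
  refine ⟨X₀, fun X hX => ⟨(hX₀ X hX).1, fun α hα hli => ?_⟩⟩
  exact (hX₀ X hX).2 (fun i => Complex.exp (α i)) (Pool.Agent.H297R2.exp_noRel D α hα hli)

end Pool.Agent.Results.MP_c82530_nt.InfinitePlaces
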