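import Mathlib
import Pool.Agent.K3h34.GP.Sh
import Pool.Agent.H297R2.ThmJs

/-!
# Gel'fond's conjecture in bounded degree for the logarithms of shifted primes

Let `h_1, ..., h_k` be nonzero integers. For all `ℚ`-linearly independent algebraic numbers
`α_1, ..., α_l` and for all but `C π(x) ^ k / log log x` of the `k`-tuples of primes up to `x` the
numbers `e^α_1, ..., e^α_l, log (p_1 + h_1), ..., log (p_k + h_k)` satisfy no nonzero polynomial
relation with algebraic coefficients of total degree at most `D`. The constant depends only on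
`k, l, D` and the shifts, not on the numbers `α_i`.

For example for every algebraic `α ≠ 0` and almost all primes `p` the numbers `e^α` and `log (p + 2)`
satisfy no relation of degree at most `D`.

The known theorem for almost all integers (`AlmostAllBetaRate`) admits more exceptions up to `x` than
there are primes up to `x`, so that it says nothing about such thin sequences.

The proof. By the theorem on cubes over arbitrary numbers without relations of degree at most `D`
(`Pool.Agent.K3h28.SP.cube_logsX`) the set of the exceptional shifted primes contains no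
multiplicative cube `a s_1 ... s_r`, `s_i ∈ {p_i, q_i}`. A set of integers up to `x` without such
cubes, all of whose elements have `r` prime factors greater than a large power of `log x`, is much
smaller than `π(x)`, and by the Bombieri-Vinogradov theorem and the method of Turán almost all shifted
primes have `r` such prime factors (`Pool.Agent.K3h28.SP.shift_free`). Induction over the number of
the primes, and the theorem of Lindemann and Weierstrass.
-/

set_option autoImplicit false

namespace Pool.Agent.Results.MP_c82530_nt.ShiftedPrimes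

/-- The complex numbers `x i` satisfy no nonzero polynomial relation of total degree at most `D`
with algebraic coefficients. -/
def IndepUpTo (D : ℕ) {σ : Type} (x : σ → ℂ) : Prop :=
  ∀ P : MvPolynomial σ (algebraicClosure ℚ ℂ), P.totalDegree ≤ D →
    MvPolynomial.aeval x P = 0 → P = 0

/-- **Main result.** (`Nat.primeCounting x` is the number of the primes up to `x`.) -/
theorem result (k l D : ℕ) (h : Fin k → ℤ) (h0 : ∀ j, h j ≠ 0) :
    ∃ (C : ℝ) (x₀ : ℕ), ∀ x ≥ x₀, ∀ α : Fin l → ℂ, (∀ i, IsAlgebraic ℚ (α i)) →
      LinearIndependent ℚ α →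
      ({p : Fin k → ℕ | (∀ j, (p j).Prime ∧ p j ≤ x ∧ 0 < (p j : ℤ) + h j) ∧
          ¬ IndepUpTo D (Sum.elim (fun i => Complex.exp (α i))
            fun j => (Real.log (((p j : ℤ) + h j : ℤ) : ℝ) : ℂ))}.ncard : ℝ) ≤
        C * (Nat.primeCounting x : ℝ) ^ k / Real.log (Real.log x) := by
  classical
  obtain ⟨C, hC0, hC⟩ := Pool.Agent.K3h34.GP.sh_tup D k (Fin l) h h0
  obtain ⟨x₀, hx₀⟩ := Filter.eventually_atTop.1 hC
  refine ⟨C, x₀, fun x hx α hα hli => ?_⟩
  have h1 := hx₀ x hx (fun i => Complex.exp (α i)) (Pool.Agent.H297R2.exp_noRel D α hα hli)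
  rw [Pool.Agent.K3h28.SP.piN_eq] at h1
  rw [mul_div_assoc]
  refine le_trans ?_ h1
  apply Nat.cast_le.2
  rw [← Set.ncard_coe_finset]
  apply Set.ncard_le_ncard _ (Finset.finite_toSet _)
  rintro p ⟨hp1, hp2⟩
  rw [Finset.mem_coe, Finset.mem_filter, Fintype.mem_piFinset]
  refine ⟨fun j => ?_, fun j => (hp1 j).2.2, fun hgood => hp2 ?_⟩
  · rw [Pool.Agent.K3h28.SP.PN, Finset.mem_filter, Finset.mem_Icc]
    exact ⟨⟨(hp1 j).1.one_lt.le, (hp1 j).2.1⟩, (hp1 j).1⟩
  · have h2 : (fun j : Fin k => (Real.log (((p j : ℤ) + h j : ℤ) : ℝ) : ℂ)) =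
        fun j : Fin k => (Real.log (Pool.Agent.K3h28.SP.sh (h j) (p j) : ℝ) : ℂ) := by
      funext j
      have h3 : ((Pool.Agent.K3h28.SP.sh (h j) (p j) : ℕ) : ℤ) = (p j : ℤ) + h j :=
        Int.toNat_of_nonneg (hp1 j).2.2.le
      rw [← h3]
      norm_cast
    rw [h2]
    exact hgood

end Pool.Agent.Results.MP_c82530_nt.ShiftedPrimes
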