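import Mathlib
import Pool.Agent.K3h28.AF.Dens
import Pool.Agent.H297R2.ExpIndep

/-!
# Gel'fond's conjecture in bounded degree for the values of multiplicative functions

Let `G_1, ..., G_m` be polynomials with integer coefficients which are multiplicatively independent
modulo constants, and let `f_1, ..., f_m` be multiplicative functions with `f_c (p) = G_c (p)` for all
sufficiently large prime numbers `p` (the values at prime powers and at small primes are arbitrary real
numbers). For all `ℚ`-linearly independent algebraic numbers `α_1, ..., α_l`, for almost all `k`-tuples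
of positive integers `(n_1, ..., n_k)` the `l + k m` numbers `e ^ α_i` and `log |f_c (n_j)|` satisfy no
nonzero polynomial relation of total degree `≤ D` with algebraic coefficients (tuples for which one of
the values `f_c (n_j)` is `0` are not counted as exceptional). The number of exceptional tuples with
`n_j ≤ x` is at most `ε x ^ k` for `x ≥ x₀`, where `x₀` does not depend on the numbers `α_i`.

For example, for almost all integers `n` the numbers `e`, `e ^ √2`, `log n`, `log φ(n)`, `log σ(n)`
satisfy no polynomial relation of degree `≤ D` over the algebraic numbers, where `φ` is Euler's function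
and `σ` is the sum of the divisors (the polynomials are `X`, `X - 1` and `X + 1`). The numbers
`β_{j,c} = |f_c (n_j)|` of Gel'fond's conjecture, the arguments of the logarithms, are here not
independent of each other in any obvious way. In the results of the starting library they are linear
functions of almost all tuples (`AlmostAllBeta`, `NumberFieldTuples`), in short windows
(`AlgebraicWindows`), or random elements of given groups.

The theorem on the logarithms is `Pool.Agent.K3h28.AF` (see
`MP_60829e_nt.ValuesOfMultiplicativeFunctions`); it holds relative to arbitrary numbers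
`t_1, ..., t_l` without relations of degree `≤ D`, and the exponentials `e ^ α_i` have this property by
the theorem of Lindemann and Weierstrass.
-/

set_option autoImplicit false

open Polynomial

namespace Pool.Agent.Results.MP_c82530_nt.ValuesOfMultiplicativeFunctions

/-- The polynomials `G_1, ..., G_m` are multiplicatively independent modulo nonzero constants. -/
def MultIndep {m : ℕ} (G : Fin m → ℤ[X]) : Prop :=
  ∀ (u v : Fin m → ℕ) (A B : ℤ), A ≠ 0 → B ≠ 0 →
    C A * ∏ c, G c ^ u c = C B * ∏ c, G c ^ v c → u = v

open Classical in
/-- **Main result.** (`Real.log y` is the logarithm of `|y|`.) -/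
theorem result (m k l D : ℕ) (G : Fin m → ℤ[X]) (hG : MultIndep G)
    (f : Fin m → ArithmeticFunction ℝ) (hf : ∀ c, (f c).IsMultiplicative) (p₀ : ℕ)
    (hfp : ∀ c, ∀ p : ℕ, p.Prime → p₀ ≤ p → f c p = ((G c).eval (p : ℤ) : ℤ))
    (ε : ℝ) (hε : 0 < ε) :
    ∃ x₀ : ℕ, ∀ x ≥ x₀,
      ∀ α : Fin l → ℂ, (∀ i, IsAlgebraic ℚ (α i)) → LinearIndependent ℚ α →
      (((Fintype.piFinset fun _ : Fin k => Finset.Icc 1 x).filter fun n =>
        (∀ j c, f c (n j) ≠ 0) ∧
        ∃ P : MvPolynomial (Fin l ⊕ Fin k × Fin m) (algebraicClosure ℚ ℂ),
          P ≠ 0 ∧ P.totalDegree ≤ D ∧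
          MvPolynomial.aeval (Sum.elim (fun i => Complex.exp (α i))
            (fun z : Fin k × Fin m => (Real.log (f z.2 (n z.1)) : ℂ))) P = 0).card : ℝ) ≤
        ε * (x : ℝ) ^ k := by
  obtain ⟨x₀, hx₀⟩ := Pool.Agent.K3h28.AF.density_tuples G hG f hf p₀ hfp D k (Fin l) ε hε
  refine ⟨x₀, fun x hx α halg hα => ?_⟩
  have h := hx₀ x hx (fun i => Complex.exp (α i)) (Pool.Agent.H297R2.exp_noRel D α halg hα)
  refine le_trans (Nat.cast_le.2 (Finset.card_le_card ?_)) h
  intro n hn
  simp only [Finset.mem_filter] at hn ⊢
  obtain ⟨hn1, hn0, P, hP0, hPD, hP⟩ := hn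
  exact ⟨hn1, hn0, fun hN => hP0 (hN P hPD hP)⟩

end Pool.Agent.Results.MP_c82530_nt.ValuesOfMultiplicativeFunctions
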